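import Pool.Agent.Lib.H90P.Defs

/-!
# Project H90P, chunk C1: counts
-/

open Finset

namespace Pool.Agent.Lib.H90P

universe u
variable {k ℓ : ℕ} {β : Type u}

theorem cnt_sum (S : Sys k ℓ β) (x : Fin k → β) : ∑ v, cnt S x v = k := by
  have h := Finset.card_eq_sum_card_fiberwise (s := (univ : Finset (Fin k)))
    (t := (univ : Finset (Fin ℓ))) (f := fun i => S.p (x i)) (fun _ _ => Finset.mem_coe.2 (mem_univ _))
  rw [card_univ, Fintype.card_fin] at h
  exact h.symm

theorem cnt_single (S : Sys k ℓ β) (x : Fin k → β) (j : Fin k) (z : β) (v : Fin ℓ) :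
    cnt S (Function.update x j z) v + (if S.p (x j) = v then 1 else 0) =
      cnt S x v + (if S.p z = v then 1 else 0) := by
  have e : ∀ y : Fin k → β, cnt S y v = ∑ i : Fin k, (if S.p (y i) = v then 1 else 0) := by
    intro y
    unfold cnt
    rw [card_filter]
  rw [e, e, ← Finset.add_sum_erase univ _ (mem_univ j), ← Finset.add_sum_erase univ
    (fun i => if S.p (x i) = v then 1 else 0) (mem_univ j)]
  have h : ∑ i ∈ univ.erase j, (if S.p (Function.update x j z i) = v then 1 else 0) =
      ∑ i ∈ univ.erase j, (if S.p (x i) = v then 1 else 0) := by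
    refine sum_congr rfl fun i hi => ?_
    rw [Function.update_of_ne (ne_of_mem_erase hi)]
  rw [h, Function.update_self]
  ring

theorem cnt_switch (S : Sys k ℓ β) (x : Fin k → β) {i j : Fin k} (hij : i ≠ j) (z d : β)
    (v : Fin ℓ) :
    cnt S (Function.update (Function.update x j z) i d) v + (if S.p (x j) = v then 1 else 0) +
      (if S.p (x i) = v then 1 else 0) =
      cnt S x v + (if S.p z = v then 1 else 0) + (if S.p d = v then 1 else 0) := by
  have h1 := cnt_single S (Function.update x j z) i d v
  have h2 := cnt_single S x j z v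
  rw [Function.update_of_ne hij] at h1
  omega

/-- The total deficit is the total excess plus one. -/
theorem deficit_sum (S : Sys k ℓ β) (x : Fin k → β) :
    ∑ v, (S.c v - cnt S x v) = ov S x + 1 := by
  have h1 : ∑ v, (S.c v - cnt S x v) + ∑ v, cnt S x v = ov S x + ∑ v, S.c v := by
    unfold ov
    rw [← sum_add_distrib, ← sum_add_distrib]
    exact sum_congr rfl fun v _ => by omega
  rw [cnt_sum, S.tot] at h1
  omega

/-- A part of deficit at least two: the number of deficient parts is at most the excess. -/
theorem dn_le (S : Sys k ℓ β) (x : Fin k → β) (v : Fin ℓ) (hv : cnt S x v + 2 ≤ S.c v) :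
    dn S x ≤ ov S x := by
  have h1 := deficit_sum S x
  have h2 : dn S x = ∑ v : Fin ℓ, (if cnt S x v < S.c v then 1 else 0) := by
    unfold dn
    rw [card_filter]
  have h3 : ∑ v : Fin ℓ, (if cnt S x v < S.c v then 1 else 0) < ∑ v, (S.c v - cnt S x v) := by
    apply sum_lt_sum
    · intro w _
      split_ifs <;> omega
    · refine ⟨v, mem_univ _, ?_⟩
      split_ifs <;> omega
  omega

/-- Tokens exist: choose `cnt - c` rows in every part with excess, `ov` rows in total, and enumerate
them. -/
theorem exists_tok (S : Sys k ℓ β) (x : Fin k → β) (h : 1 ≤ ov S x) :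
    ∃ ρ : ℕ → Fin k, Tok S x ρ (ov S x - 1) := by
  classical
  have hcard : ∀ v, ∃ T : Finset (Fin k), T ⊆ univ.filter (fun i => S.p (x i) = v) ∧
      T.card = cnt S x v - S.c v := by
    intro v
    exact Finset.exists_subset_card_eq (by unfold cnt; omega)
  choose T hT hTc using hcard
  set U : Finset (Fin k) := univ.biUnion T with hU
  have hTp : ∀ v, ∀ i ∈ T v, S.p (x i) = v := fun v i hi => (mem_filter.1 (hT v hi)).2
  have hUc : U.card = ov S x := by
    rw [hU, card_biUnion]
    · exact sum_congr rfl fun v _ => hTc v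
    · intro v _ w _ hvw
      change Disjoint (T v) (T w)
      rw [Finset.disjoint_left]
      intro i hi hi'
      exact hvw ((hTp v i hi).symm.trans (hTp w i hi'))
  obtain ⟨e⟩ : Nonempty (Fin (ov S x) ≃ U) := by
    rw [← hUc]
    exact ⟨(Finset.equivFin U).symm⟩
  refine ⟨fun t => if h' : t < ov S x then (e ⟨t, h'⟩ : Fin k) else (e ⟨0, by omega⟩ : Fin k),
    ?_, ?_⟩
  · intro s t hst ht
    have h1 : s < ov S x := by omega
    have h2 : t < ov S x := by omega
    simp only [h1, h2, dif_pos]
    intro h3
    have h4 := e.injective (Subtype.ext h3)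
    rw [Fin.mk.injEq] at h4
    omega
  · intro v
    rw [← hTc v]
    apply Finset.card_le_card_of_injOn
      (fun t => if h' : t < ov S x then (e ⟨t, h'⟩ : Fin k) else (e ⟨0, by omega⟩ : Fin k))
    · intro t ht
      simp only [coe_filter, mem_range, Set.mem_ofPred_eq] at ht
      have h1 : t < ov S x := by omega
      simp only [h1, dif_pos] at ht ⊢
      have h2 : ((e ⟨t, h1⟩ : U) : Fin k) ∈ U := (e ⟨t, h1⟩).2
      have h3 : ∃ w, ((e ⟨t, h1⟩ : U) : Fin k) ∈ T w := by
        have h4 := h2
        simp only [hU, mem_biUnion] at h4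
        obtain ⟨w, _, h5⟩ := h4
        exact ⟨w, h5⟩
      obtain ⟨w, hw⟩ := h3
      have h6 := hTp w _ hw
      rw [ht.2] at h6
      rw [h6]
      exact hw
    · intro s hs t ht hst
      simp only [coe_filter, mem_range, Set.mem_ofPred_eq] at hs ht
      have h1 : s < ov S x := by omega
      have h2 : t < ov S x := by omega
      simp only [h1, h2, dif_pos] at hst
      have h4 := e.injective (Subtype.ext hst)
      rw [Fin.mk.injEq] at h4
      exact h4

/-- If all deficits are one, there is an exact part and the excess is positive, then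
`ov + 3 ≤ ℓ`: the deficient parts are `ov + 1` parts, and there are an exact part and a part with
excess. -/
theorem count_final (S : Sys k ℓ β) (x : Fin k → β) (h : 1 ≤ ov S x)
    (h1 : ∀ v, cnt S x v < S.c v → cnt S x v + 1 = S.c v) (v : Fin ℓ) (hv : cnt S x v = S.c v) :
    ov S x + 3 ≤ ℓ := by
  classical
  have hdn : dn S x = ov S x + 1 := by
    rw [← deficit_sum S x]
    unfold dn
    rw [card_filter]
    refine sum_congr rfl fun w _ => ?_
    by_cases hw : cnt S x w < S.c w
    · rw [if_pos hw]
      have := h1 w hw
      omega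
    · rw [if_neg hw]
      omega
  have hover : ∃ w, S.c w < cnt S x w := by
    by_contra hcon
    push Not at hcon
    have : ov S x = 0 := by
      unfold ov
      exact sum_eq_zero fun w _ => by
        have := hcon w
        omega
    omega
  obtain ⟨w, hw⟩ := hover
  have hvw : v ≠ w := by
    rintro rfl
    omega
  have h2 : (insert v (insert w (univ.filter (fun u => cnt S x u < S.c u)))).card ≤ ℓ := by
    refine (card_le_univ _).trans ?_
    rw [Fintype.card_fin]
  rw [card_insert_of_notMem, card_insert_of_notMem] at h2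
  · unfold dn at hdn
    omega
  · rw [mem_filter]
    rintro ⟨_, h3⟩
    omega
  · rw [mem_insert, mem_filter]
    rintro (h3 | ⟨_, h3⟩)
    · exact hvw h3
    · omega

end Pool.Agent.Lib.H90P
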