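import Mathlib

/-!
# Project H90P, chunk C2: the effect of a move on the excess (pure arithmetic)
-/

open Finset

namespace Pool.Agent.Lib.H90P

/-- Moving one element from a part with excess to a deficient part lowers the excess by one. -/
theorem pure_direct {ℓ : ℕ} (n n' c : Fin ℓ → ℕ) (a δ : Fin ℓ)
    (h : ∀ v, n' v + (if a = v then 1 else 0) = n v + (if δ = v then 1 else 0))
    (ha : c a < n a) (hδ : n δ < c δ) :
    ∑ v, (n' v - c v) + 1 = ∑ v, (n v - c v) := by
  have h1 : ∀ v, (n' v - c v) + (if a = v then 1 else 0) = n v - c v := by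
    intro v
    have hv := h v
    by_cases h2 : a = v
    · subst h2
      have h3 : δ ≠ a := by
        rintro rfl
        omega
      rw [if_pos rfl, if_neg h3] at hv
      rw [if_pos rfl]
      omega
    · rw [if_neg h2] at hv ⊢
      by_cases h3 : δ = v
      · subst h3
        rw [if_pos rfl] at hv
        omega
      · rw [if_neg h3] at hv
        omega
  rw [← sum_congr rfl fun v _ => h1 v, sum_add_distrib, sum_ite_eq univ a, if_pos (mem_univ _)]

theorem c2_term_le {ℓ : ℕ} (n n' c : Fin ℓ → ℕ) (a δ w q : Fin ℓ)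
    (h : ∀ v, n' v + (if w = v then 1 else 0) + (if a = v then 1 else 0) =
      n v + (if q = v then 1 else 0) + (if δ = v then 1 else 0))
    (ha : c a < n a) (hδ : n δ < c δ) (hw : c w ≤ n w) (v : Fin ℓ) :
    (n' v - c v) + (if a = v then 1 else 0) ≤ (n v - c v) + (if q = v then 1 else 0) := by
  have hv := h v
  have hδw : δ ≠ w := by
    rintro rfl
    omega
  have hδa : δ ≠ a := by
    rintro rfl
    omega
  by_cases h1 : a = v
  · subst h1
    rw [if_pos rfl, if_neg hδa] at hv
    rw [if_pos rfl]
    split_ifs at hv ⊢ <;> omega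
  · rw [if_neg h1] at hv ⊢
    by_cases h2 : δ = v
    · subst h2
      rw [if_pos rfl, if_neg (Ne.symm hδw)] at hv
      split_ifs at hv ⊢ <;> omega
    · rw [if_neg h2] at hv
      split_ifs at hv ⊢ <;> omega

theorem c2_term_eq {ℓ : ℕ} (n n' c : Fin ℓ → ℕ) (a δ w q : Fin ℓ)
    (h : ∀ v, n' v + (if w = v then 1 else 0) + (if a = v then 1 else 0) =
      n v + (if q = v then 1 else 0) + (if δ = v then 1 else 0))
    (ha : c a < n a) (hδ : n δ < c δ) (hw : c w ≤ n w)
    (heq : ∑ v, (n v - c v) ≤ ∑ v, (n' v - c v)) (v : Fin ℓ) :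
    (n' v - c v) + (if a = v then 1 else 0) = (n v - c v) + (if q = v then 1 else 0) := by
  have h1 := sum_le_sum fun v (_ : v ∈ (univ : Finset (Fin ℓ))) =>
    c2_term_le n n' c a δ w q h ha hδ hw v
  have h2 : ∑ v, ((n' v - c v) + (if a = v then 1 else 0)) =
      ∑ v, ((n v - c v) + (if q = v then 1 else 0)) := by
    apply le_antisymm h1
    rw [sum_add_distrib, sum_add_distrib, sum_ite_eq univ a, sum_ite_eq univ q,
      if_pos (mem_univ _), if_pos (mem_univ _)]
    omega
  exact (Finset.sum_eq_sum_iff_of_le (fun v _ => c2_term_le n n' c a δ w q h ha hδ hw v)).1 h2 v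
    (mem_univ _)

/-- One element leaves `a` (excess) and one leaves `w` (not deficient), one enters `δ` (deficient) and
one enters `q`. Then the excess does not grow. -/
theorem pure_le {ℓ : ℕ} (n n' c : Fin ℓ → ℕ) (a δ w q : Fin ℓ)
    (h : ∀ v, n' v + (if w = v then 1 else 0) + (if a = v then 1 else 0) =
      n v + (if q = v then 1 else 0) + (if δ = v then 1 else 0))
    (ha : c a < n a) (hδ : n δ < c δ) (hw : c w ≤ n w) :
    ∑ v, (n' v - c v) ≤ ∑ v, (n v - c v) := by
  have h1 := sum_le_sum fun v (_ : v ∈ (univ : Finset (Fin ℓ))) =>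
    c2_term_le n n' c a δ w q h ha hδ hw v
  rw [sum_add_distrib, sum_add_distrib, sum_ite_eq univ a, sum_ite_eq univ q,
    if_pos (mem_univ _), if_pos (mem_univ _)] at h1
  omega

/-- The neutral case: if the excess does not drop, then `w` was exact (or `w = a` has excess one), and
`q ≠ w` is not deficient, except for `q = δ` with deficit one. -/
theorem pure_eq {ℓ : ℕ} (n n' c : Fin ℓ → ℕ) (a δ w q : Fin ℓ)
    (h : ∀ v, n' v + (if w = v then 1 else 0) + (if a = v then 1 else 0) =
      n v + (if q = v then 1 else 0) + (if δ = v then 1 else 0))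
    (ha : c a < n a) (hδ : n δ < c δ) (hw : c w ≤ n w)
    (heq : ∑ v, (n v - c v) ≤ ∑ v, (n' v - c v)) :
    (w ≠ a → n w = c w) ∧ (w = a → n a = c a + 1) ∧ q ≠ w ∧
      (c q ≤ n q ∨ (q = δ ∧ n δ + 1 = c δ)) := by
  have ht := c2_term_eq n n' c a δ w q h ha hδ hw heq
  have hδw : δ ≠ w := by
    rintro rfl
    omega
  have hδa : δ ≠ a := by
    rintro rfl
    omega
  have h1 := ht w
  have h2 := h w
  have h3 := ht q
  have h4 := h q
  rw [if_pos rfl, if_neg hδw] at h2
  rw [if_pos rfl] at h3 h4
  refine ⟨?_, ?_, ?_, ?_⟩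
  · intro hwa
    rw [if_neg (Ne.symm hwa)] at h1 h2
    split_ifs at h1 h2 <;> omega
  · intro hwa
    subst hwa
    rw [if_pos rfl] at h1 h2
    split_ifs at h1 h2 <;> omega
  · intro hqw
    subst hqw
    rw [if_pos rfl] at h1 h2
    split_ifs at h1 h2 with h5
    · subst h5
      omega
    · omega
  · by_cases h5 : c q ≤ n q
    · exact Or.inl h5
    right
    have h6 : a ≠ q := by
      rintro rfl
      omega
    have h7 : w ≠ q := by
      rintro rfl
      omega
    rw [if_neg h6] at h3
    rw [if_neg h6, if_neg h7] at h4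
    by_cases h8 : δ = q
    · rw [if_pos h8] at h4
      subst h8
      exact ⟨rfl, by omega⟩
    · rw [if_neg h8] at h4
      omega

/-- In the neutral case the number of deficient parts grows by one if the deficit of `δ` was at least
two: `w` becomes deficient and all deficient parts stay deficient. -/
theorem pure_dn {ℓ : ℕ} (n n' c : Fin ℓ → ℕ) (a δ w q : Fin ℓ)
    (h : ∀ v, n' v + (if w = v then 1 else 0) + (if a = v then 1 else 0) =
      n v + (if q = v then 1 else 0) + (if δ = v then 1 else 0))
    (ha : c a < n a) (hδ : n δ + 2 ≤ c δ) (hw : c w ≤ n w)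
    (heq : ∑ v, (n v - c v) ≤ ∑ v, (n' v - c v)) :
    (univ.filter (fun v => n v < c v)).card < (univ.filter (fun v => n' v < c v)).card := by
  obtain ⟨h1, h2, h3, h4⟩ := pure_eq n n' c a δ w q h ha (by omega) hw heq
  have hδw : δ ≠ w := by
    rintro rfl
    omega
  have hqδ : q ≠ δ := by
    rintro rfl
    rcases h4 with h4 | ⟨_, h4⟩ <;> omega
  apply card_lt_card
  rw [Finset.ssubset_iff_of_subset]
  · refine ⟨w, ?_, ?_⟩
    · rw [mem_filter]
      refine ⟨mem_univ _, ?_⟩
      have h5 := h w
      rw [if_pos rfl, if_neg h3, if_neg hδw] at h5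
      by_cases h6 : w = a
      · subst h6
        rw [if_pos rfl] at h5
        have := h2 rfl
        omega
      · rw [if_neg (Ne.symm h6)] at h5
        have := h1 h6
        omega
    · rw [mem_filter]
      rintro ⟨_, h5⟩
      omega
  · intro v hv
    rw [mem_filter] at hv ⊢
    refine ⟨mem_univ _, ?_⟩
    have h5 := h v
    have hwv : w ≠ v := by
      rintro rfl
      omega
    have hav : a ≠ v := by
      rintro rfl
      omega
    rw [if_neg hwv, if_neg hav] at h5
    by_cases h6 : δ = v
    · subst h6
      rw [if_neg hqδ, if_pos rfl] at h5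
      omega
    · have h7 : q ≠ v := by
        rintro rfl
        rcases h4 with h4 | ⟨h4, _⟩
        · omega
        · exact h6 h4.symm
      rw [if_neg h7, if_neg h6] at h5
      omega

/-- In the neutral case the number of deficient parts is unchanged if the deficit of `δ` was one: `w`
becomes deficient, `δ` is no longer deficient, all other parts are deficient before iff after. -/
theorem pure_dn' {ℓ : ℕ} (n n' c : Fin ℓ → ℕ) (a δ w q : Fin ℓ)
    (h : ∀ v, n' v + (if w = v then 1 else 0) + (if a = v then 1 else 0) =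
      n v + (if q = v then 1 else 0) + (if δ = v then 1 else 0))
    (ha : c a < n a) (hδ : n δ + 1 = c δ) (hw : c w ≤ n w)
    (heq : ∑ v, (n v - c v) ≤ ∑ v, (n' v - c v)) :
    (univ.filter (fun v => n v < c v)).card ≤ (univ.filter (fun v => n' v < c v)).card := by
  obtain ⟨h1, h2, h3, h4⟩ := pure_eq n n' c a δ w q h ha (by omega) hw heq
  have hδw : δ ≠ w := by
    rintro rfl
    omega
  have hsub : insert w ((univ.filter (fun v => n v < c v)).erase δ) ⊆
      univ.filter (fun v => n' v < c v) := by
    intro v hv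
    rw [mem_insert] at hv
    rw [mem_filter]
    refine ⟨mem_univ _, ?_⟩
    rcases hv with rfl | hv
    · have h5 := h v
      rw [if_pos rfl, if_neg h3, if_neg hδw] at h5
      by_cases h6 : v = a
      · subst h6
        rw [if_pos rfl] at h5
        have := h2 rfl
        omega
      · rw [if_neg (Ne.symm h6)] at h5
        have := h1 h6
        omega
    · rw [mem_erase, mem_filter] at hv
      have h5 := h v
      have hwv : w ≠ v := by
        rintro rfl
        omega
      have hav : a ≠ v := by
        rintro rfl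
        omega
      have h7 : q ≠ v := by
        rintro rfl
        rcases h4 with h4 | ⟨h4, _⟩
        · omega
        · exact hv.1 h4
      rw [if_neg hwv, if_neg hav, if_neg h7, if_neg (Ne.symm hv.1)] at h5
      omega
  refine le_trans ?_ (card_le_card hsub)
  rw [card_insert_of_notMem, card_erase_of_mem]
  · omega
  · rw [mem_filter]
    exact ⟨mem_univ _, by omega⟩
  · rw [mem_erase, mem_filter]
    rintro ⟨_, _, h5⟩
    omega

end Pool.Agent.Lib.H90P
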