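import Mathlib

/-!
# Project H90P (MP_b95b09_co): common independent transversals, one matroid a sum of uniform matroids

See `PROOF.md`. `M` is an arbitrary matroid, `p` the function to the `ℓ` parts, `c` the capacities, the
rows `B i` (`i : Fin k`) are disjoint independent sets with exactly `c v` elements in the part `v`, and
`∑ c = k + 1`.
-/

open Finset

namespace Pool.Agent.Lib.H90P

universe u

/-- The data. -/
structure Sys (k ℓ : ℕ) (β : Type u) where
  M : Matroid β
  p : β → Fin ℓ
  c : Fin ℓ → ℕ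
  B : Fin k → Finset β
  disj : ∀ i j, ∀ b, b ∈ B i → b ∈ B j → i = j
  ind : ∀ i, M.Indep (B i : Set β)
  hc : ∀ i v, ((B i).filter (fun b => p b = v)).card = c v
  tot : ∑ v, c v = k + 1

variable {k ℓ : ℕ} {β : Type u}

/-- `x` is a transversal, independent in `M`. -/
def Valid (S : Sys k ℓ β) (x : Fin k → β) : Prop :=
  (∀ i, x i ∈ S.B i) ∧ S.M.Indep (Set.range x)

/-- The number of elements in the part `v`. -/
def cnt (S : Sys k ℓ β) (x : Fin k → β) (v : Fin ℓ) : ℕ :=
  (univ.filter (fun i : Fin k => S.p (x i) = v)).card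

/-- The total excess. -/
def ov (S : Sys k ℓ β) (x : Fin k → β) : ℕ := ∑ v, (cnt S x v - S.c v)

/-- The number of deficient parts. -/
def dn (S : Sys k ℓ β) (x : Fin k → β) : ℕ := (univ.filter (fun v => cnt S x v < S.c v)).card

/-- Optimal: minimal excess, and then the maximal number of deficient parts. -/
structure Opt (S : Sys k ℓ β) (x : Fin k → β) : Prop where
  val : Valid S x
  f : ∀ y, Valid S y → ov S x ≤ ov S y
  m : ∀ y, Valid S y → ov S y ≤ ov S x → dn S y ≤ dn S x

/-- `d ∈ B i` closes a circuit `C` with `x`, and `x j ∈ C`. -/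
structure Arc (S : Sys k ℓ β) (x : Fin k → β) (i : Fin k) (d : β) (j : Fin k) (C : Set β) :
    Prop where
  mem : d ∈ S.B i
  circ : S.M.IsCircuit C
  sub : C ⊆ insert d (Set.range x)
  dC : d ∈ C
  jC : x j ∈ C

/-- The levels: `lev 0` are the parts of deficit at least `2`; `lev (t+1)` is `lev t` together with the
deficient parts of the elements `x j` on the arcs of the row `ρ t` with `p d ∈ lev t`. -/
def lev (S : Sys k ℓ β) (x : Fin k → β) (ρ : ℕ → Fin k) : ℕ → Set (Fin ℓ)
  | 0 => {v | cnt S x v + 2 ≤ S.c v}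
  | t + 1 => lev S x ρ t ∪ {v | cnt S x v < S.c v ∧
      ∃ d j C, Arc S x (ρ t) d j C ∧ S.p d ∈ lev S x ρ t ∧ S.p (x j) = v}

/-- An arc of the row `ρ h` from `lev h` to a part which is not deficient. -/
def Exit (S : Sys k ℓ β) (x : Fin k → β) (ρ : ℕ → Fin k) (h : ℕ) : Prop :=
  ∃ d j C, Arc S x (ρ h) d j C ∧ S.p d ∈ lev S x ρ h ∧
    S.c (S.p (x j)) ≤ cnt S x (S.p (x j))

/-- The rows `ρ 0, ..., ρ h` are distinct, and at most `cnt - c` of them are in each part (so all of
them are in parts with excess). -/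
def Tok (S : Sys k ℓ β) (x : Fin k → β) (ρ : ℕ → Fin k) (h : ℕ) : Prop :=
  (∀ s t, s < t → t ≤ h → ρ s ≠ ρ t) ∧
    ∀ v, ((range (h + 1)).filter (fun t => S.p (x (ρ t)) = v)).card ≤ cnt S x v - S.c v

end Pool.Agent.Lib.H90P
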