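import Pool.Agent.Lib.H90P.S2

/-!
# Project H90P, chunk Fin: the theorem
-/

open Finset

namespace Pool.Agent.Lib.H90P

universe u

/-- The system on `Fin k × α`: `M = M₂.comap Prod.snd`... restricted to the pairs; the `B i` become the
sets `{i} × B i` (disjoint), independent in the comap (the projection is injective on them); the number
of elements of `B i` in the part `v` is at most `c v` and the sum over `v` is `k + 1 = ∑ c v`, so it is
`c v`. Given `x` with excess at most `ℓ - 3`, let `J` contain `min (cnt v, c v)` rows of every part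
`v`. -/
theorem main_sum (k ℓ : ℕ) (α : Type u) (M₁ M₂ : Matroid α) (P : α → Fin ℓ) (c : Fin ℓ → ℕ)
    (h₁ : ∀ I ⊆ M₁.E, M₁.Indep I ↔ ∀ v, (I ∩ P ⁻¹' {v}).encard ≤ c v)
    (hc : ∑ v, c v = k + 1) (B : Fin k → Set α)
    (hB : ∀ i, M₁.Indep (B i) ∧ M₂.Indep (B i) ∧ (B i).encard = k + 1) :
    ∃ (x : Fin k → α) (J : Finset (Fin k)), (∀ i, x i ∈ B i) ∧ Function.Injective x ∧
      M₂.Indep (Set.range x) ∧ k ≤ J.card + (ℓ - 3) ∧ M₁.Indep (x '' J) := by
  classical
  have hfin : ∀ i, (B i).Finite := fun i => by
    apply Set.finite_of_encard_eq_coe (k := k + 1)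
    rw [(hB i).2.2]
    push_cast
    rfl
  have hncard : ∀ i, (hfin i).toFinset.card = k + 1 := fun i => by
    have h1 := (hB i).2.2
    rw [(hfin i).encard_eq_coe_toFinset_card] at h1
    exact_mod_cast h1
  have hcard : ∀ i v, ((hfin i).toFinset.filter (fun b => P b = v)).card = c v := by
    intro i
    have hle : ∀ v ∈ (univ : Finset (Fin ℓ)),
        ((hfin i).toFinset.filter (fun b => P b = v)).card ≤ c v := by
      intro v _
      have h1 := (h₁ (B i) (hB i).1.subset_ground).1 (hB i).1 v
      have h2 : ((((hfin i).toFinset.filter (fun b => P b = v)) : Finset α) : Set α) =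
          B i ∩ P ⁻¹' {v} := by
        ext b
        simp
      rw [← h2, Set.encard_coe_eq_coe_finsetCard] at h1
      exact_mod_cast h1
    have hsum : ∑ v, ((hfin i).toFinset.filter (fun b => P b = v)).card = ∑ v, c v := by
      rw [hc, ← hncard i]
      exact (Finset.card_eq_sum_card_fiberwise
        (fun b _ => Finset.mem_coe.2 (mem_univ _))).symm
    intro v
    exact (Finset.sum_eq_sum_iff_of_le hle).1 hsum v (mem_univ _)
  let S : Sys k ℓ (Fin k × α) :=
    { M := M₂.comap Prod.snd
      p := fun b => P b.2
      c := c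
      B := fun i => (hfin i).toFinset.image (fun a => (i, a))
      disj := by
        intro i j b hi hj
        rw [mem_image] at hi hj
        obtain ⟨a, _, rfl⟩ := hi
        obtain ⟨a', _, h⟩ := hj
        exact (congrArg Prod.fst h).symm
      ind := by
        intro i
        rw [Matroid.comap_indep_iff]
        constructor
        · refine (hB i).2.1.subset ?_
          rintro _ ⟨b, hb, rfl⟩
          rw [Finset.mem_coe, mem_image] at hb
          obtain ⟨a, ha, rfl⟩ := hb
          exact (hfin i).mem_toFinset.1 ha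
        · rintro b hb b' hb' h
          rw [Finset.mem_coe, mem_image] at hb hb'
          obtain ⟨a, ha, rfl⟩ := hb
          obtain ⟨a', ha', rfl⟩ := hb'
          exact Prod.ext rfl h
      hc := by
        intro i v
        rw [← hcard i v, filter_image, card_image_of_injective]
        intro a b hab
        exact (Prod.mk.inj hab).2
      tot := hc }
  obtain ⟨x', hx', hov⟩ := main_sys S
  have hmem : ∀ i, (x' i).2 ∈ B i := by
    intro i
    have h := hx'.1 i
    simp only [S, mem_image] at h
    obtain ⟨a, ha, h⟩ := h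
    rw [← h]
    exact (hfin i).mem_toFinset.1 ha
  have hind := hx'.2
  have hind' : M₂.Indep (Prod.snd '' Set.range x') ∧ Set.InjOn Prod.snd (Set.range x') :=
    Matroid.comap_indep_iff.1 hind
  have hinj : Function.Injective (fun i => (x' i).2) := by
    intro i j hij
    exact valid_inj S hx'.1 (hind'.2 ⟨i, rfl⟩ ⟨j, rfl⟩ hij)
  have hT : ∀ v, ∃ T : Finset (Fin k), T ⊆ univ.filter (fun i => S.p (x' i) = v) ∧
      T.card = min (cnt S x' v) (c v) := by
    intro v
    exact Finset.exists_subset_card_eq (by unfold cnt; exact min_le_left _ _)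
  choose T hT hTc using hT
  have hTp : ∀ v, ∀ i ∈ T v, S.p (x' i) = v := fun v i hi => (mem_filter.1 (hT v hi)).2
  refine ⟨fun i => (x' i).2, univ.biUnion T, hmem, hinj, ?_, ?_, ?_⟩
  · have h1 : Set.range (fun i => (x' i).2) = Prod.snd '' Set.range x' := by
      rw [← Set.range_comp]
      rfl
    rw [h1]
    exact hind'.1
  · have h1 : (univ.biUnion T).card = ∑ v, min (cnt S x' v) (c v) := by
      rw [card_biUnion]
      · exact sum_congr rfl fun v _ => hTc v
      · intro v _ w _ hvw
        change Disjoint (T v) (T w)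
        rw [Finset.disjoint_left]
        intro i hi hi'
        exact hvw ((hTp v i hi).symm.trans (hTp w i hi'))
    have h2 : ∑ v, min (cnt S x' v) (c v) + ov S x' = ∑ v, cnt S x' v := by
      unfold ov
      rw [← sum_add_distrib]
      refine sum_congr rfl fun v _ => ?_
      change min (cnt S x' v) (c v) + (cnt S x' v - c v) = cnt S x' v
      omega
    rw [cnt_sum] at h2
    omega
  · rw [h₁ _ (by
      rintro _ ⟨i, _, rfl⟩
      exact (hB i).1.subset_ground (hmem i))]
    intro v
    have h1 : ((fun i => (x' i).2) '' ((univ.biUnion T : Finset (Fin k)) : Set (Fin k))) ∩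
        P ⁻¹' {v} ⊆ (((T v).image (fun i => (x' i).2) : Finset α) : Set α) := by
      rintro _ ⟨⟨i, hi, rfl⟩, hv⟩
      rw [Finset.mem_coe, mem_biUnion] at hi
      obtain ⟨w, _, hw⟩ := hi
      have h2 : w = v := (hTp w i hw).symm.trans hv
      rw [h2] at hw
      rw [Finset.mem_coe, mem_image]
      exact ⟨i, hw, rfl⟩
    refine (Set.encard_le_encard h1).trans ?_
    rw [Set.encard_coe_eq_coe_finsetCard]
    have h2 : ((T v).image (fun i => (x' i).2)).card ≤ c v :=
      card_image_le.trans (by rw [hTc v]; exact min_le_right _ _)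
    exact_mod_cast h2

end Pool.Agent.Lib.H90P
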