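import Pool.Agent.Lib.H90P.Defs

/-!
# Project H90P, chunk M1: valid transversals exist
-/

open Finset

namespace Pool.Agent.Lib.H90P

universe u
variable {k ℓ : ℕ} {β : Type u}

theorem card_B (S : Sys k ℓ β) (i : Fin k) : (S.B i).card = k + 1 := by
  have h : (S.B i).card = ∑ v : Fin ℓ, ((S.B i).filter (fun b => S.p b = v)).card :=
    Finset.card_eq_sum_card_fiberwise (fun b _ => Finset.mem_coe.2 (mem_univ _))
  rw [h, ← S.tot]
  exact sum_congr rfl fun v _ => S.hc i v

/-- A valid transversal is injective (the rows are disjoint). -/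
theorem valid_inj (S : Sys k ℓ β) {x : Fin k → β} (hx : ∀ i, x i ∈ S.B i) :
    Function.Injective x := by
  intro i j hij
  have h := hx j
  rw [← hij] at h
  exact S.disj i j _ (hx i) h

/-- Greedy: for every set `I` of rows there is `x` with `x i ∈ B i` and `x '' I` independent, by
induction on `I`: `|B i| = k + 1 > |x '' I|`, augment `x '' I` by an element `d` of `B i`
(`Matroid.Indep.augment_finset` or `Matroid.Indep.augment`), replace `x i` by `d`. -/
theorem exists_valid (S : Sys k ℓ β) : ∃ x, Valid S x := by
  classical
  have key : ∀ I : Finset (Fin k), ∃ x : Fin k → β, (∀ i, x i ∈ S.B i) ∧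
      S.M.Indep ((I.image x : Finset β) : Set β) := by
    intro I
    induction I using Finset.induction_on with
    | empty =>
      have hne : ∀ i, (S.B i).Nonempty := fun i => by
        rw [← Finset.card_pos, card_B]
        omega
      refine ⟨fun i => (hne i).choose, fun i => (hne i).choose_spec, ?_⟩
      simp
    | insert i I hi ih =>
      obtain ⟨x, hx, hind⟩ := ih
      have hlt : (I.image x).card < (S.B i).card := by
        rw [card_B]
        have h1 : (I.image x).card ≤ I.card := card_image_le
        have h2 : I.card ≤ k := by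
          have := Finset.card_le_univ I
          simpa using this
        omega
      obtain ⟨d, hd, hdI, hins⟩ := hind.augment_finset (S.ind i) hlt
      refine ⟨Function.update x i d, ?_, ?_⟩
      · intro j
        by_cases hj : j = i
        · subst hj
          rw [Function.update_self]
          exact hd
        · rw [Function.update_of_ne hj]
          exact hx j
      · refine hins.subset ?_
        rw [Finset.coe_image, Finset.coe_insert, Set.image_insert_eq, Function.update_self]
        apply Set.insert_subset_insert
        rw [Finset.coe_image]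
        rintro _ ⟨j, hj, rfl⟩
        have hji : j ≠ i := fun h => hi (by rw [← h]; exact hj)
        rw [Function.update_of_ne hji]
        exact ⟨j, hj, rfl⟩
  obtain ⟨x, hx, hind⟩ := key univ
  refine ⟨x, hx, ?_⟩
  rw [Finset.coe_image, Finset.coe_univ, Set.image_univ] at hind
  exact hind

/-- There is a free element in every row. -/
theorem exists_z (S : Sys k ℓ β) {x : Fin k → β} (hx : Valid S x) (j : Fin k) :
    ∃ z ∈ S.B j, z ∉ Set.range x ∧ S.M.Indep (insert z (Set.range x)) := by
  classical
  have h1 : ((univ.image x : Finset β) : Set β) = Set.range x := by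
    rw [Finset.coe_image, Finset.coe_univ, Set.image_univ]
  have hind : S.M.Indep ((univ.image x : Finset β) : Set β) := by
    rw [h1]
    exact hx.2
  have hlt : (univ.image x : Finset β).card < (S.B j).card := by
    rw [card_B]
    have h1 : (univ.image x : Finset β).card ≤ (univ : Finset (Fin k)).card := card_image_le
    rw [card_univ, Fintype.card_fin] at h1
    omega
  obtain ⟨d, hd, hdI, hins⟩ := hind.augment_finset (S.ind j) hlt
  refine ⟨d, hd, ?_, ?_⟩
  · rw [← h1]
    exact fun h => hdI (by exact_mod_cast h)
  · rw [← h1]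
    exact hins

theorem exists_opt (S : Sys k ℓ β) : ∃ x, Opt S x := by
  classical
  have hex : ∃ f, ∃ x, Valid S x ∧ ov S x = f := by
    obtain ⟨x, hx⟩ := exists_valid S
    exact ⟨_, x, hx, rfl⟩
  obtain ⟨x, hx, hf⟩ := Nat.find_spec hex
  have hmin : ∀ y, Valid S y → ov S x ≤ ov S y := by
    intro y hy
    rw [hf]
    exact Nat.find_min' hex ⟨y, hy, rfl⟩
  have hex2 : ∃ m, ∃ y, Valid S y ∧ ov S y = ov S x ∧ ℓ - dn S y = m := ⟨_, x, hx, rfl, rfl⟩
  obtain ⟨y, hy, hyf, hym⟩ := Nat.find_spec hex2
  have hle : ∀ w, dn S w ≤ ℓ := fun w => by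
    unfold dn
    refine (card_filter_le _ _).trans ?_
    rw [card_univ, Fintype.card_fin]
  refine ⟨y, hy, fun w hw => by rw [hyf]; exact hmin w hw, fun w hw hwf => ?_⟩
  have h1 : ov S w = ov S x := le_antisymm (by rw [← hyf]; exact hwf) (hmin w hw)
  have h2 := Nat.find_min' hex2 ⟨w, hw, h1, rfl⟩
  rw [← hym] at h2
  have h3 := hle w
  have h4 := hle y
  omega

end Pool.Agent.Lib.H90P
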