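import Pool.Agent.Lib.H90P.M1

/-!
# Project H90P, chunk M2: moves
-/

open Finset

namespace Pool.Agent.Lib.H90P

universe u
variable {k ℓ : ℕ} {β : Type u}

theorem valid_single (S : Sys k ℓ β) {x : Fin k → β} (hx : Valid S x) {j : Fin k} {z : β}
    (hz : z ∈ S.B j) (hzi : S.M.Indep (insert z (Set.range x))) :
    Valid S (Function.update x j z) := by
  refine ⟨?_, ?_⟩
  · intro l
    by_cases hl : l = j
    · subst hl
      rw [Function.update_self]
      exact hz
    · rw [Function.update_of_ne hl]
      exact hx.1 l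
  · refine hzi.subset ?_
    rintro _ ⟨l, rfl⟩
    by_cases hl : l = j
    · subst hl
      rw [Function.update_self]
      exact Set.mem_insert _ _
    · rw [Function.update_of_ne hl]
      exact Set.mem_insert_of_mem _ ⟨l, rfl⟩

/-- `J = insert z (range x)` is independent, `C ⊆ insert d J` is a circuit, `d ∉ J` (else `C ⊆ J`), so
`insert d J \ {x j}` is independent, and it contains the range of the new transversal. -/
theorem valid_switch (S : Sys k ℓ β) {x : Fin k → β} (hx : Valid S x) {i j : Fin k} {d z : β}
    {C : Set β} (h : Arc S x i d j C) (hz : z ∈ S.B j) (hz' : z ∉ Set.range x)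
    (hzi : S.M.Indep (insert z (Set.range x))) :
    Valid S (Function.update (Function.update x j z) i d) := by
  have hdx : d ∉ Set.range x := by
    intro hd
    have h1 : C ⊆ Set.range x := h.sub.trans (by rw [Set.insert_eq_of_mem hd])
    exact h.circ.not_indep (hx.2.subset h1)
  have hdz : d ≠ z := by
    intro hd
    have h1 : C ⊆ insert z (Set.range x) := by
      rw [← hd]
      exact h.sub
    exact h.circ.not_indep (hzi.subset h1)
  have hdJ : d ∉ insert z (Set.range x) := by
    intro hd
    rcases hd with hd | hd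
    · exact hdz hd
    · exact hdx hd
  have hCs : C ⊆ insert d (insert z (Set.range x)) :=
    h.sub.trans (Set.insert_subset_insert (Set.subset_insert _ _))
  have hcl : d ∈ S.M.closure (insert z (Set.range x)) := by
    have h1 := h.circ.mem_closure_sdiff_singleton_of_mem h.dC
    refine S.M.closure_subset_closure ?_ h1
    rintro e ⟨he, hed⟩
    rcases hCs he with h2 | h2
    · exact absurd h2 hed
    · exact h2
  have hfc := h.circ.eq_fundCircuit_of_subset hzi hCs
  have hj : x j ∈ S.M.fundCircuit d (insert z (Set.range x)) := by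
    rw [← hfc]
    exact h.jC
  have hind := (hzi.mem_fundCircuit_iff hcl hdJ).1 hj
  have hinj := valid_inj S hx.1
  refine ⟨?_, hind.subset ?_⟩
  · intro l
    by_cases hl : l = i
    · subst hl
      rw [Function.update_self]
      exact h.mem
    · rw [Function.update_of_ne hl]
      by_cases hl' : l = j
      · subst hl'
        rw [Function.update_self]
        exact hz
      · rw [Function.update_of_ne hl']
        exact hx.1 l
  · rintro _ ⟨l, rfl⟩
    by_cases hl : l = i
    · subst hl
      rw [Function.update_self]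
      exact ⟨Set.mem_insert _ _, fun h2 => hdx ⟨j, h2.symm⟩⟩
    · rw [Function.update_of_ne hl]
      by_cases hl' : l = j
      · subst hl'
        rw [Function.update_self]
        exact ⟨Set.mem_insert_of_mem _ (Set.mem_insert _ _), fun h2 => hz' ⟨l, h2.symm⟩⟩
      · rw [Function.update_of_ne hl']
        exact ⟨Set.mem_insert_of_mem _ (Set.mem_insert_of_mem _ ⟨l, rfl⟩),
          fun h2 => hl' (hinj h2)⟩

/-- Arcs whose circuit avoids `x i` and `x j` stay arcs. -/
theorem arc_keep (S : Sys k ℓ β) {x : Fin k → β} {i j i' j' : Fin k} {d z d' : β}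
    {C' : Set β} (h : Arc S x i' d' j' C') (hi : x i ∉ C') (hj : x j ∉ C') :
    Function.update (Function.update x j z) i d j' = x j' ∧
      Arc S (Function.update (Function.update x j z) i d) i' d' j' C' := by
  have hne : ∀ l, x l ∈ C' → l ≠ i ∧ l ≠ j := by
    intro l hl
    constructor
    · rintro rfl
      exact hi hl
    · rintro rfl
      exact hj hl
  have hupd : ∀ l, x l ∈ C' → Function.update (Function.update x j z) i d l = x l := by
    intro l hl
    obtain ⟨h1, h2⟩ := hne l hl
    rw [Function.update_of_ne h1, Function.update_of_ne h2]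
  refine ⟨hupd j' h.jC, ⟨h.mem, h.circ, ?_, h.dC, ?_⟩⟩
  · intro e he
    rcases h.sub he with h1 | ⟨l, rfl⟩
    · exact Or.inl h1
    · exact Or.inr ⟨l, hupd l he⟩
  · rw [hupd j' h.jC]
    exact h.jC

/-- **Hitting.** If `∑_{v ∈ Δ} cnt v < ∑_{v ∈ Δ} c v`, then every row has an element `d` in a part of
`Δ` which is free or closes a circuit leaving `Δ`. Proof: the elements of `B i` in parts of `Δ` form an
independent set of size `∑_{v ∈ Δ} c v`; the elements of `x` in parts of `Δ` form an independent set `I`
of size `∑_{v ∈ Δ} cnt v`; so there is `d ∈ B i \ I` in a part of `Δ` with `insert d I` independent. If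
`insert d (range x)` is not independent, it contains a circuit `C`; `d ∈ C` as `range x` is independent;
`C` is not contained in `insert d I`. -/
theorem hit (S : Sys k ℓ β) {x : Fin k → β} (hx : Valid S x) (Δ : Finset (Fin ℓ))
    (hΔ : ∑ v ∈ Δ, cnt S x v < ∑ v ∈ Δ, S.c v) (i : Fin k) :
    ∃ d ∈ S.B i, S.p d ∈ Δ ∧ (S.M.Indep (insert d (Set.range x)) ∨
      ∃ j C, Arc S x i d j C ∧ S.p (x j) ∉ Δ) := by
  classical
  set A : Finset β := (S.B i).filter (fun b => S.p b ∈ Δ) with hA
  set I : Finset β := (univ.filter (fun l => S.p (x l) ∈ Δ)).image x with hI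
  have hAcard : A.card = ∑ v ∈ Δ, S.c v := by
    have h1 : A.card = ∑ v ∈ Δ, (A.filter (fun b => S.p b = v)).card :=
      Finset.card_eq_sum_card_fiberwise (fun b hb => by
        rw [hA] at hb
        exact (mem_filter.1 (Finset.mem_coe.1 hb)).2)
    rw [h1]
    refine sum_congr rfl fun v hv => ?_
    rw [← S.hc i v, hA, filter_filter]
    congr 1
    apply filter_congr
    intro b _
    constructor
    · exact fun h => h.2
    · exact fun h => ⟨by rw [h]; exact hv, h⟩
  have hIcard : I.card ≤ ∑ v ∈ Δ, cnt S x v := by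
    refine card_image_le.trans ?_
    have h1 : (univ.filter (fun l => S.p (x l) ∈ Δ)).card =
        ∑ v ∈ Δ, ((univ.filter (fun l => S.p (x l) ∈ Δ)).filter (fun l => S.p (x l) = v)).card :=
      Finset.card_eq_sum_card_fiberwise (fun l hl => (mem_filter.1 (Finset.mem_coe.1 hl)).2)
    rw [h1]
    refine sum_le_sum fun v _ => ?_
    unfold cnt
    apply card_le_card
    intro l hl
    rw [mem_filter] at hl ⊢
    exact ⟨mem_univ _, hl.2⟩
  have hIsub : (I : Set β) ⊆ Set.range x := by
    intro e he
    rw [hI, Finset.coe_image] at he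
    obtain ⟨l, _, rfl⟩ := he
    exact ⟨l, rfl⟩
  have hIind : S.M.Indep (I : Set β) := hx.2.subset hIsub
  have hAind : S.M.Indep (A : Set β) := (S.ind i).subset (by
    intro b hb
    rw [hA] at hb
    exact Finset.mem_coe.2 (mem_filter.1 (Finset.mem_coe.1 hb)).1)
  obtain ⟨d, hdA, hdI, hins⟩ := hIind.augment_finset hAind (by omega)
  rw [hA, mem_filter] at hdA
  refine ⟨d, hdA.1, hdA.2, ?_⟩
  by_cases hfree : S.M.Indep (insert d (Set.range x))
  · exact Or.inl hfree
  right
  have hdx : d ∉ Set.range x := by
    intro h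
    rw [Set.insert_eq_of_mem h] at hfree
    exact hfree hx.2
  have hdE : d ∈ S.M.E := (S.ind i).subset_ground (by exact_mod_cast hdA.1)
  have hcl : d ∈ S.M.closure (Set.range x) := by
    by_contra hcl
    exact hfree ((hx.2.notMem_closure_iff_of_notMem hdx hdE).1 hcl)
  have hC := hx.2.fundCircuit_isCircuit hcl hdx
  have hCs := S.M.fundCircuit_subset_insert d (Set.range x)
  have hex : ∃ e ∈ S.M.fundCircuit d (Set.range x), e ∉ insert d (I : Set β) := by
    by_contra hcon
    push Not at hcon
    exact hC.not_indep (hins.subset hcon)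
  obtain ⟨e, heC, heI⟩ := hex
  rcases hCs heC with h1 | ⟨j, rfl⟩
  · exact absurd (Or.inl h1) heI
  · refine ⟨j, _, ⟨hdA.1, hC, hCs, S.M.mem_fundCircuit _ _, heC⟩, ?_⟩
    intro hj
    apply heI
    right
    rw [hI, Finset.coe_image]
    exact ⟨j, by rw [Finset.coe_filter]; exact ⟨mem_univ _, hj⟩, rfl⟩

end Pool.Agent.Lib.H90P
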