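import Pool.Agent.Lib.H90P.M2
import Pool.Agent.Lib.H90P.C1
import Pool.Agent.Lib.H90P.C2

/-!
# Project H90P, chunk S1: the step
-/

open Finset

namespace Pool.Agent.Lib.H90P

universe u
variable {k ℓ : ℕ} {β : Type u}

/-- A row with excess has no free element in a deficient part (`valid_single`, `cnt_single`,
`pure_direct`). -/
theorem no_direct (S : Sys k ℓ β) {x : Fin k → β} (hx : Opt S x) {i : Fin k} {d : β}
    (hd : d ∈ S.B i) (hi : S.c (S.p (x i)) < cnt S x (S.p (x i)))
    (hδ : cnt S x (S.p d) < S.c (S.p d)) : ¬ S.M.Indep (insert d (Set.range x)) := by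
  intro hfree
  have hv := valid_single S hx.val hd hfree
  have h1 := pure_direct (cnt S x) (cnt S (Function.update x i d)) S.c (S.p (x i)) (S.p d)
    (fun v => cnt_single S x i d v) hi hδ
  have h2 := hx.f _ hv
  unfold ov at h2
  omega

/-- **The step.** Switching along an arc from a row with excess through a deficient part to a part
which is not deficient leads from optimal to optimal transversals. If `i = j`, then the new transversal
is `update x i d` and the excess drops (`pure_direct`, with `a = w`): excluded. Else `cnt_switch`,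
`pure_le`, `pure_eq`, `pure_dn` (excluded by maximality of the number of deficient parts), `pure_dn'`. -/
theorem step (S : Sys k ℓ β) {x : Fin k → β} (hx : Opt S x) {i j : Fin k} {d z : β} {C : Set β}
    (harc : Arc S x i d j C) (hi : S.c (S.p (x i)) < cnt S x (S.p (x i)))
    (hd : cnt S x (S.p d) < S.c (S.p d)) (hj : S.c (S.p (x j)) ≤ cnt S x (S.p (x j)))
    (hz : z ∈ S.B j) (hz' : z ∉ Set.range x) (hzi : S.M.Indep (insert z (Set.range x)))
    (y : Fin k → β) (hy : y = Function.update (Function.update x j z) i d) :
    Opt S y ∧ ov S y = ov S x ∧ cnt S x (S.p d) + 1 = S.c (S.p d) ∧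
      S.c (S.p d) ≤ cnt S y (S.p d) ∧
      (S.p (x j) ≠ S.p (x i) → cnt S x (S.p (x j)) = S.c (S.p (x j))) ∧
      (S.p (x j) = S.p (x i) → cnt S x (S.p (x i)) = S.c (S.p (x i)) + 1) ∧
      (∀ v, v ≠ S.p d → cnt S x v < S.c v → cnt S y v = cnt S x v) ∧
      (∀ v, cnt S x v - S.c v ≤ (cnt S y v - S.c v) + (if v = S.p (x i) then 1 else 0)) ∧
      (S.p z ≠ S.p d → cnt S y (S.p d) = S.c (S.p d)) := by
  have hval : Valid S y := by
    rw [hy]
    exact valid_switch S hx.val harc hz hz' hzi
  have hxy := hx.f y hval
  have hij : i ≠ j := by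
    rintro rfl
    rw [Function.update_idem] at hy
    have h1 := pure_direct (cnt S x) (cnt S y) S.c (S.p (x i)) (S.p d)
      (fun v => by rw [hy]; exact cnt_single S x i d v) hi hd
    unfold ov at hxy
    omega
  have hc : ∀ v, cnt S y v + (if S.p (x j) = v then 1 else 0) +
      (if S.p (x i) = v then 1 else 0) =
      cnt S x v + (if S.p z = v then 1 else 0) + (if S.p d = v then 1 else 0) := by
    intro v
    rw [hy]
    exact cnt_switch S x hij z d v
  set n := cnt S x with hn
  set n' := cnt S y with hn'
  set a := S.p (x i) with ha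
  set w := S.p (x j) with hw
  set q := S.p z with hq
  set δ := S.p d with hδ
  have hyx : ov S y ≤ ov S x := pure_le n n' S.c a δ w q hc hi hd hj
  obtain ⟨e1, e2, e3, e4⟩ := pure_eq n n' S.c a δ w q hc hi hd hj hxy
  have hone : n δ + 1 = S.c δ := by
    by_contra hne
    have h1 : dn S x < dn S y := pure_dn n n' S.c a δ w q hc hi (by omega) hj hxy
    have h2 := hx.m y hval hyx
    omega
  have hdn : dn S x ≤ dn S y := pure_dn' n n' S.c a δ w q hc hi hone hj hxy
  have hδw : w ≠ δ := by
    intro h
    rw [h] at hj
    omega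
  have hδa : a ≠ δ := by
    intro h
    rw [h] at hi
    omega
  have hcδ := hc δ
  rw [if_neg hδw, if_neg hδa, if_pos rfl] at hcδ
  refine ⟨⟨hval, fun u hu => hyx.trans (hx.f u hu), fun u hu huf =>
    (hx.m u hu (huf.trans hyx)).trans hdn⟩, le_antisymm hyx hxy, hone, by omega, e1, e2, ?_, ?_, ?_⟩
  · intro v hvδ hv
    have h1 := hc v
    have h2 : w ≠ v := by
      intro h
      rw [h] at hj
      omega
    have h3 : a ≠ v := by
      intro h
      rw [h] at hi
      omega
    have h4 : q ≠ v := by
      intro h
      rcases e4 with e4 | ⟨e4, _⟩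
      · rw [h] at e4
        omega
      · exact hvδ (h.symm.trans e4)
    rw [if_neg h2, if_neg h3, if_neg h4, if_neg (Ne.symm hvδ)] at h1
    omega
  · intro v
    have h1 := hc v
    by_cases hva : a = v
    · rw [if_pos hva] at h1
      rw [if_pos hva.symm]
      by_cases hwa : w = v
      · rw [if_pos hwa] at h1
        have := e2 (hwa.trans hva.symm)
        rw [hva] at this
        omega
      · rw [if_neg hwa] at h1
        omega
    · rw [if_neg hva] at h1
      rw [if_neg (Ne.symm hva)]
      by_cases hwa : w = v
      · have := e1 (by rw [hwa]; exact Ne.symm hva)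
        rw [hwa] at this
        omega
      · rw [if_neg hwa] at h1
        omega
  · intro hqδ
    rw [if_neg hqδ] at hcδ
    omega

end Pool.Agent.Lib.H90P
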