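import Pool.Agent.Lib.H90P.S1

/-!
# Project H90P, chunk S2: levels and exits
-/

open Finset

namespace Pool.Agent.Lib.H90P

universe u
variable {k ℓ : ℕ} {β : Type u}

theorem lev_deficient (S : Sys k ℓ β) (x : Fin k → β) (ρ : ℕ → Fin k) (t : ℕ) (v : Fin ℓ)
    (hv : v ∈ lev S x ρ t) : cnt S x v < S.c v := by
  induction t generalizing v with
  | zero =>
    have h : cnt S x v + 2 ≤ S.c v := hv
    omega
  | succ t ih =>
    rcases hv with h | h
    · exact ih v h
    · exact h.1

theorem lev_mono (S : Sys k ℓ β) (x : Fin k → β) (ρ : ℕ → Fin k) {s t : ℕ} (h : s ≤ t) :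
    lev S x ρ s ⊆ lev S x ρ t := by
  induction h with
  | refl => exact le_refl _
  | step _ ih => exact ih.trans Set.subset_union_left

theorem tok_mono (S : Sys k ℓ β) {x : Fin k → β} {ρ : ℕ → Fin k} {s t : ℕ} (h : s ≤ t)
    (ht : Tok S x ρ t) : Tok S x ρ s := by
  refine ⟨fun a b hab hb => ht.1 a b hab (hb.trans h), fun v => le_trans ?_ (ht.2 v)⟩
  apply card_le_card
  apply filter_subset_filter
  intro a ha
  rw [mem_range] at ha ⊢
  omega

theorem tok_over (S : Sys k ℓ β) {x : Fin k → β} {ρ : ℕ → Fin k} {s t : ℕ} (h : s ≤ t)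
    (ht : Tok S x ρ t) : S.c (S.p (x (ρ s))) < cnt S x (S.p (x (ρ s))) := by
  have h1 := ht.2 (S.p (x (ρ s)))
  have h2 : 0 < ((range (t + 1)).filter (fun t => S.p (x (ρ t)) = S.p (x (ρ s)))).card := by
    rw [card_pos]
    exact ⟨s, mem_filter.2 ⟨mem_range.2 (by omega), rfl⟩⟩
  omega

/-- **No exits.** Strong induction on `h`. Let `(ρ h, d, j, C)` be the exit arc of `x`, `δ = p d`, `y` the
transversal of `step` (for `z` from `exists_z`). `δ ∉ lev 0` (its deficit is one), so there is `u < h` with
`δ ∈ lev (u+1) \ lev u`: an arc `(ρ u, d', j', C')` with `p d' ∈ lev u` and `p (x j') = δ`. By induction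
`x` has no exit at levels `< h`, so the circuits of arcs `(ρ t, d'', j'', C'')`, `t < h`, `p d'' ∈ lev t`
contain only elements of deficient parts besides `d''`, and so not `x (ρ h)` (excess) and not `x j` (not
deficient; careful: `d''` itself is not in the range of `x`, as `C''` is not contained in it): they are
arcs of `y` (`arc_keep`). By induction on `t ≤ u`: `lev x ρ t ⊆ lev y ρ t` (deficits other than that of `δ`
are unchanged; `δ ∉ lev x ρ u`). So `y` has an exit at level `u` (`δ` is not deficient for `y`). And
`Tok y ρ u`: if `w = p (x j) ≠ a = p (x (ρ h))`, then `w` is exact, so `j` is none of `ρ 0, ..., ρ h`; if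
`w = a`, then the excess of `a` is one, so `ρ h` is the only one of `ρ 0, ..., ρ h` in the part `a` and
`j` is none of `ρ 0, ..., ρ u`; so `y (ρ t) = x (ρ t)` for `t ≤ u`, and the excess of `a` drops by at
most one, but `ρ h` is no longer counted. -/
theorem no_exit (S : Sys k ℓ β) (h : ℕ) : ∀ (x : Fin k → β) (ρ : ℕ → Fin k), Opt S x →
    Tok S x ρ h → ¬ Exit S x ρ h := by
  induction h using Nat.strong_induction_on with
  | _ h ih =>
    intro x ρ hx hT hE
    obtain ⟨d, j, C, harc, hdl, hj⟩ := hE
    have hδ := lev_deficient S x ρ h _ hdl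
    have ha := tok_over S (le_refl h) hT
    obtain ⟨z, hz, hz', hzi⟩ := exists_z S hx.val j
    obtain ⟨hyO, hyov, hone, hyδ, e1, e2, hdef, hexc, -⟩ :=
      step S hx harc ha hδ hj hz hz' hzi _ rfl
    set y := Function.update (Function.update x j z) (ρ h) d with hy
    have hno : ∀ t, t < h → ¬ Exit S x ρ t := fun t ht =>
      ih t ht x ρ hx (tok_mono S (le_of_lt ht) hT)
    have hcirc : ∀ t, t < h → ∀ d'' j'' C'', Arc S x (ρ t) d'' j'' C'' →
        S.p d'' ∈ lev S x ρ t → ∀ l, x l ∈ C'' → cnt S x (S.p (x l)) < S.c (S.p (x l)) := by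
      intro t ht d'' j'' C'' harc'' hd'' l hl
      by_contra hcon
      push Not at hcon
      exact hno t ht ⟨d'', l, C'', ⟨harc''.mem, harc''.circ, harc''.sub, harc''.dC, hl⟩, hd'', hcon⟩
    have hkeep : ∀ t, t < h → ∀ d'' j'' C'', Arc S x (ρ t) d'' j'' C'' →
        S.p d'' ∈ lev S x ρ t → y j'' = x j'' ∧ Arc S y (ρ t) d'' j'' C'' := by
      intro t ht d'' j'' C'' harc'' hd''
      apply arc_keep S harc''
      · intro hl
        have := hcirc t ht d'' j'' C'' harc'' hd'' _ hl
        omega
      · intro hl
        have := hcirc t ht d'' j'' C'' harc'' hd'' _ hl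
        omega
    -- the level of `δ`
    have hex : ∃ s, S.p d ∈ lev S x ρ s := ⟨h, hdl⟩
    classical
    obtain ⟨u, hu, hu1, hu2⟩ : ∃ u, u < h ∧ S.p d ∉ lev S x ρ u ∧ S.p d ∈ lev S x ρ (u + 1) := by
      have h1 := Nat.find_spec hex
      have h2 := Nat.find_min' hex hdl
      have h3 : Nat.find hex ≠ 0 := by
        intro h0
        rw [h0] at h1
        have h4 : cnt S x (S.p d) + 2 ≤ S.c (S.p d) := h1
        omega
      obtain ⟨u, hu⟩ := Nat.exists_eq_succ_of_ne_zero h3
      refine ⟨u, by omega, ?_, ?_⟩
      · exact Nat.find_min hex (by omega)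
      · rw [hu] at h1
        exact h1
    rcases hu2 with hu2 | ⟨-, d', j', C', harc', hd', hj'⟩
    · exact hu1 hu2
    -- levels of `y`
    have hincl : ∀ t, t ≤ u → lev S x ρ t ⊆ lev S y ρ t := by
      intro t
      induction t with
      | zero =>
        intro _ v hv
        have h1 : cnt S x v + 2 ≤ S.c v := hv
        have h2 : v ≠ S.p d := by
          rintro rfl
          omega
        have h3 := hdef v h2 (by omega)
        change cnt S y v + 2 ≤ S.c v
        omega
      | succ t iht =>
        intro htu v hv
        have hvδ : v ≠ S.p d := by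
          rintro rfl
          exact hu1 (lev_mono S x ρ htu hv)
        rcases hv with hv | ⟨hv, d'', j'', C'', harc'', hd'', hj''⟩
        · exact Or.inl (iht (by omega) hv)
        · right
          obtain ⟨k1, k2⟩ := hkeep t (by omega) d'' j'' C'' harc'' hd''
          refine ⟨?_, d'', j'', C'', k2, iht (by omega) hd'', by rw [k1]; exact hj''⟩
          rw [hdef v hvδ hv]
          exact hv
    obtain ⟨k1, k2⟩ := hkeep u hu d' j' C' harc' hd'
    have hEy : Exit S y ρ u := by
      refine ⟨d', j', C', k2, hincl u le_rfl hd', ?_⟩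
      rw [k1, hj']
      exact hyδ
    -- tokens of `y`
    have hne : ∀ t, t ≤ u → y (ρ t) = x (ρ t) := by
      intro t ht
      have h1 : ρ t ≠ ρ h := hT.1 t h (by omega) le_rfl
      have h2 : ρ t ≠ j := by
        intro h2
        have h3 := tok_over S (s := t) (by omega) hT
        rw [h2] at h3
        by_cases h4 : S.p (x j) = S.p (x (ρ h))
        · have h5 := e2 h4
          have h6 := hT.2 (S.p (x (ρ h)))
          have h7 : 2 ≤ ((range (h + 1)).filter
              (fun t => S.p (x (ρ t)) = S.p (x (ρ h)))).card := by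
            have h8 : ({t, h} : Finset ℕ) ⊆ (range (h + 1)).filter
              (fun t => S.p (x (ρ t)) = S.p (x (ρ h))) := by
              intro s hs
              rw [mem_insert, mem_singleton] at hs
              rw [mem_filter, mem_range]
              rcases hs with rfl | rfl
              · exact ⟨by omega, by rw [h2]; exact h4⟩
              · exact ⟨by omega, rfl⟩
            have h9 := card_le_card h8
            rw [card_pair (by omega)] at h9
            exact h9
          omega
        · have := e1 h4
          omega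
      rw [hy, Function.update_of_ne h1, Function.update_of_ne h2]
    have hTy : Tok S y ρ u := by
      refine ⟨fun s t hst ht => hT.1 s t hst (by omega), fun v => ?_⟩
      have h1 : ((range (u + 1)).filter (fun t => S.p (y (ρ t)) = v)) =
          (range (u + 1)).filter (fun t => S.p (x (ρ t)) = v) := by
        apply filter_congr
        intro t ht
        rw [hne t (by rw [mem_range] at ht; omega)]
      rw [h1]
      have h2 := hexc v
      have h3 := hT.2 v
      by_cases hva : v = S.p (x (ρ h))
      · rw [if_pos hva] at h2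
        have h4 : ((range (u + 1)).filter (fun t => S.p (x (ρ t)) = v)).card <
            ((range (h + 1)).filter (fun t => S.p (x (ρ t)) = v)).card := by
          apply card_lt_card
          rw [Finset.ssubset_iff_of_subset]
          · refine ⟨h, ?_, ?_⟩
            · rw [mem_filter, mem_range]
              exact ⟨by omega, hva.symm⟩
            · rw [mem_filter, mem_range]
              rintro ⟨h5, _⟩
              omega
          · apply filter_subset_filter
            intro s hs
            rw [mem_range] at hs ⊢
            omega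
        omega
      · rw [if_neg hva] at h2
        have h4 : ((range (u + 1)).filter (fun t => S.p (x (ρ t)) = v)).card ≤
            ((range (h + 1)).filter (fun t => S.p (x (ρ t)) = v)).card := by
          apply card_le_card
          apply filter_subset_filter
          intro s hs
          rw [mem_range] at hs ⊢
          omega
        omega
    exact ih u hu y ρ hyO hTy hEy

/-- **All deficits are one.** Otherwise `lev 0` is not empty. Let `ρ` be as in `exists_tok`, `f = ov`. For
`t < f`: `hit` with `Δ = lev t`, `i = ρ t`: the first alternative is excluded by `no_direct`, the second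
gives a part outside of `lev t`, which is deficient by `no_exit`, so `lev (t+1)` is larger than `lev t`. So
`lev f` has at least `f + 1` elements, but there are at most `f` deficient parts (`dn_le`). -/
theorem deficit_one (S : Sys k ℓ β) {x : Fin k → β} (hx : Opt S x) (hf : 1 ≤ ov S x)
    (v : Fin ℓ) (hv : cnt S x v < S.c v) : cnt S x v + 1 = S.c v := by
  classical
  by_contra hne
  have hv2 : cnt S x v + 2 ≤ S.c v := by omega
  obtain ⟨ρ, hT⟩ := exists_tok S x hf
  have hgrow : ∀ t, t ≤ ov S x → t + 1 ≤ (lev S x ρ t).ncard := by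
    intro t
    induction t with
    | zero =>
      intro _
      rw [zero_add]
      have h1 : v ∈ lev S x ρ 0 := hv2
      exact (Set.ncard_pos (Set.toFinite _)).2 ⟨v, h1⟩
    | succ t ih =>
      intro ht
      have h1 := ih (by omega)
      have hTt : Tok S x ρ t := tok_mono S (by omega) hT
      have hnonempty : (lev S x ρ t).Nonempty :=
        (Set.ncard_pos (Set.toFinite _)).1 (by omega)
      set Δ : Finset (Fin ℓ) := (lev S x ρ t).toFinset with hΔ
      have hmem : ∀ w, w ∈ Δ ↔ w ∈ lev S x ρ t := fun w => Set.mem_toFinset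
      have hlt : ∑ w ∈ Δ, cnt S x w < ∑ w ∈ Δ, S.c w := by
        apply sum_lt_sum_of_nonempty
        · obtain ⟨w, hw⟩ := hnonempty
          exact ⟨w, (hmem w).2 hw⟩
        · intro w hw
          exact lev_deficient S x ρ t w ((hmem w).1 hw)
      obtain ⟨d, hd, hdΔ, halt⟩ := hit S hx.val Δ hlt (ρ t)
      have hdl := (hmem _).1 hdΔ
      rcases halt with halt | ⟨j, C, harc, hjΔ⟩
      · exact absurd halt (no_direct S hx hd (tok_over S le_rfl hTt)
          (lev_deficient S x ρ t _ hdl))
      · have hjl : S.p (x j) ∉ lev S x ρ t := fun h => hjΔ ((hmem _).2 h)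
        have hjd : cnt S x (S.p (x j)) < S.c (S.p (x j)) := by
          by_contra hcon
          push Not at hcon
          exact no_exit S t x ρ hx hTt ⟨d, j, C, harc, hdl, hcon⟩
        have hjl' : S.p (x j) ∈ lev S x ρ (t + 1) :=
          Or.inr ⟨hjd, d, j, C, harc, hdl, rfl⟩
        have hss : lev S x ρ t ⊂ lev S x ρ (t + 1) :=
          ⟨lev_mono S x ρ (Nat.le_succ t), fun h => hjl (h hjl')⟩
        have h2 := Set.ncard_lt_ncard hss (Set.toFinite _)
        omega
  have h1 := hgrow (ov S x) le_rfl
  have h2 : (lev S x ρ (ov S x)).ncard ≤ dn S x := by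
    unfold dn
    rw [← Set.ncard_coe_finset]
    apply Set.ncard_le_ncard _ (Set.toFinite _)
    intro w hw
    rw [Finset.coe_filter]
    exact ⟨mem_univ _, lev_deficient S x ρ _ w hw⟩
  have h3 := dn_le S x v hv2
  omega

/-- **An exact part.** Let `x` be optimal without exact part; take a row `i` with excess and `hit` with
`Δ` the set of all deficient parts (not empty: `deficit_sum`). The first alternative is excluded by
`no_direct`; so there is an arc to `x j` with excess (there is no exact part), and with `z` from `exists_z`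
(`p z` is not deficient by `no_direct` for the row `j`, so `p z ≠ p d`), `step` gives an optimal `y` for
which `p d` is exact. -/
theorem exists_exact (S : Sys k ℓ β) {x : Fin k → β} (hx : Opt S x) (hf : 1 ≤ ov S x) :
    ∃ y, Opt S y ∧ ov S y = ov S x ∧ ∃ v, cnt S y v = S.c v := by
  classical
  by_cases hex : ∃ v, cnt S x v = S.c v
  · exact ⟨x, hx, rfl, hex⟩
  push Not at hex
  obtain ⟨a, ha⟩ : ∃ a, S.c a < cnt S x a := by
    by_contra hcon
    push Not at hcon
    have : ov S x = 0 := by
      unfold ov
      exact sum_eq_zero fun w _ => by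
        have := hcon w
        omega
    omega
  obtain ⟨i, hi⟩ : ∃ i, S.p (x i) = a := by
    by_contra hcon
    push Not at hcon
    have : cnt S x a = 0 := by
      unfold cnt
      rw [card_eq_zero, filter_eq_empty_iff]
      intro i _
      exact hcon i
    omega
  have hi' : S.c (S.p (x i)) < cnt S x (S.p (x i)) := by
    rw [hi]
    exact ha
  set Δ : Finset (Fin ℓ) := univ.filter (fun v => cnt S x v < S.c v) with hΔ
  have hmem : ∀ w, w ∈ Δ ↔ cnt S x w < S.c w := by
    intro w
    rw [hΔ, mem_filter]
    exact ⟨fun h => h.2, fun h => ⟨mem_univ _, h⟩⟩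
  have hne : Δ.Nonempty := by
    by_contra hcon
    rw [Finset.not_nonempty_iff_eq_empty] at hcon
    have h1 := deficit_sum S x
    have h2 : ∑ v, (S.c v - cnt S x v) = 0 := sum_eq_zero fun w _ => by
      have h3 : ¬ cnt S x w < S.c w := fun h => by
        have := (hmem w).2 h
        rw [hcon] at this
        exact absurd this (notMem_empty _)
      omega
    omega
  obtain ⟨d, hd, hdΔ, halt⟩ := hit S hx.val Δ
    (sum_lt_sum_of_nonempty hne fun w hw => (hmem w).1 hw) i
  have hdd := (hmem _).1 hdΔ
  rcases halt with halt | ⟨j, C, harc, hjΔ⟩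
  · exact absurd halt (no_direct S hx hd hi' hdd)
  have hj1 : S.c (S.p (x j)) ≤ cnt S x (S.p (x j)) := by
    by_contra hcon
    push Not at hcon
    exact hjΔ ((hmem _).2 hcon)
  have hj2 : S.c (S.p (x j)) < cnt S x (S.p (x j)) :=
    lt_of_le_of_ne hj1 (Ne.symm (hex _))
  obtain ⟨z, hz, hz', hzi⟩ := exists_z S hx.val j
  have hzn : ¬ cnt S x (S.p z) < S.c (S.p z) := fun h => no_direct S hx hz hj2 h hzi
  have hzd : S.p z ≠ S.p d := by
    intro h
    rw [h] at hzn
    exact hzn hdd
  obtain ⟨hyO, hyov, -, -, -, -, -, -, hexact⟩ := step S hx harc hi' hdd hj1 hz hz' hzi _ rfl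
  exact ⟨_, hyO, hyov, _, hexact hzd⟩

/-- The theorem for systems. -/
theorem main_sys (S : Sys k ℓ β) : ∃ x, Valid S x ∧ ov S x ≤ ℓ - 3 := by
  obtain ⟨x, hx⟩ := exists_opt S
  rcases Nat.eq_zero_or_pos (ov S x) with h0 | hpos
  · exact ⟨x, hx.val, by omega⟩
  obtain ⟨y, hy, hyov, v, hv⟩ := exists_exact S hx hpos
  refine ⟨y, hy.val, ?_⟩
  have h1 := count_final S y (by omega) (fun w hw => deficit_one S hy (by omega) w hw) v hv
  omega

end Pool.Agent.Lib.H90P
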